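import Pool.Agent.helper44.NLT.Spec
import Pool.Agent.helper24.BR.MBB

set_option autoImplicit false

open Complex Metric Set Filter Topology MeasureTheory MPS
open Pool.Agent.helper98.ILF Pool.Agent.helper16.Multibrot

noncomputable section

namespace NLT

lemma SMA_ne {n : ℕ} {c : ℂ} (hn : 2 ≤ n) (hc : c ∈ multibrot n) : (filled n c).Nonempty := by
  refine ⟨0, fun k => ?_⟩
  have h1 : ‖(fun z : ℂ => z ^ n + c)^[k] 0‖ ≤ 2 := ((BR.MBB n c hn).1 hc).2 k
  have h2 := norm_nonneg c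
  linarith

lemma SMA_term {n : ℕ} {c : ℂ} {ψ : ℕ → ℂ → ℂ} {a : ℕ → ℂ} {M : ℝ} (h : Ser n c ψ a M) (t : ℂ) {d : ℝ} (hd : 0 < d)
    {w : ℂ} (hw : w ∉ filled n c) (hdw : d ≤ infDist w (filled n c)) (j : ℕ) :
    ‖t ^ (j + 1) * ψ (j + 1) w‖ ≤ ‖t‖ ^ (j + 1) * (M / d) := by
  rw [norm_mul, norm_pow]
  refine mul_le_mul_of_nonneg_left ?_ (by positivity)
  refine (h.bd (j + 1) (by omega) w hw).trans ?_
  exact div_le_div_of_nonneg_left h.hM hd hdw

lemma SMA_geo {t : ℂ} (ht : ‖t‖ < 1) (D : ℝ) : Summable (fun j : ℕ => ‖t‖ ^ (j + 1) * D) :=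
  ((summable_nat_add_iff 1).2 (summable_geometric_of_lt_one (norm_nonneg t) ht)).mul_right D

lemma SMA_pos {n : ℕ} {c : ℂ} (hn : 2 ≤ n) (hc : c ∈ multibrot n) {z : ℂ} (hz : z ∉ filled n c) :
    0 < infDist z (filled n c) :=
  ((isClosed_filled n c).notMem_iff_infDist_pos (SMA_ne hn hc)).1 hz

lemma SMA_sum1 {n : ℕ} {c : ℂ} {ψ : ℕ → ℂ → ℂ} {a : ℕ → ℂ} {M : ℝ} (h : Ser n c ψ a M) {t : ℂ} (ht : ‖t‖ < 1)
    {z : ℂ} (hz : z ∉ filled n c) : Summable (fun j => ‖t ^ j * ψ j z‖) := by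
  refine (summable_nat_add_iff 1).1 ?_
  exact Summable.of_nonneg_of_le (fun j => norm_nonneg _)
    (fun j => SMA_term h t (SMA_pos h.hn h.hc hz) hz le_rfl j) (SMA_geo ht _)

lemma SMA_split {n : ℕ} {c : ℂ} {ψ : ℕ → ℂ → ℂ} {a : ℕ → ℂ} {M : ℝ} (h : Ser n c ψ a M) {t : ℂ} (ht : ‖t‖ < 1)
    {z : ℂ} (hz : z ∉ filled n c) : Ps ψ t z = z + ∑' j : ℕ, t ^ (j + 1) * ψ (j + 1) z := by
  have h1 : Summable (fun j => t ^ j * ψ j z) := (SMA_sum1 h ht hz).of_norm
  unfold Ps
  rw [h1.tsum_eq_zero_add, h.z0, pow_zero, one_mul]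

theorem SMA : SMA_stmt := by
  intro n c ψ a M h t ht
  rw [mem_ball_zero_iff] at ht
  refine ⟨fun z hz => SMA_sum1 h ht hz, ?_, ?_, ?_⟩
  · intro z hz
    have hz' : z ∉ filled n c := hz
    have hd := SMA_pos h.hn h.hc hz'
    set d := infDist z (filled n c) with hdd
    have hball : ∀ w ∈ ball z (d / 2), w ∉ filled n c ∧ d / 2 ≤ infDist w (filled n c) := by
      intro w hw
      have h1 : infDist z (filled n c) ≤ infDist w (filled n c) + dist z w := infDist_le_infDist_add_dist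
      have h2 : dist z w < d / 2 := by rw [dist_comm]; exact hw
      have h3 : d / 2 ≤ infDist w (filled n c) := by linarith
      refine ⟨fun hw' => ?_, h3⟩
      rw [infDist_zero_of_mem hw'] at h3
      linarith
    have h4 : DifferentiableOn ℂ (fun w => ∑' j : ℕ, t ^ (j + 1) * ψ (j + 1) w) (ball z (d / 2)) := by
      refine differentiableOn_tsum_of_summable_norm (SMA_geo ht (M / (d / 2))) (fun j => ?_) isOpen_ball
        (fun j w hw => SMA_term h t (by linarith) (hball w hw).1 (hball w hw).2 j)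
      exact ((h.dif (j + 1)).mono (fun w hw => (hball w hw).1)).const_mul _
    have h5 : DifferentiableOn ℂ (Ps ψ t) (ball z (d / 2)) := by
      have h6 : DifferentiableOn ℂ (fun w => w + ∑' j : ℕ, t ^ (j + 1) * ψ (j + 1) w) (ball z (d / 2)) :=
        differentiableOn_id.add h4
      exact h6.congr (fun w hw => SMA_split h ht (hball w hw).1)
    exact (h5.differentiableAt (isOpen_ball.mem_nhds (mem_ball_self (by linarith)))).differentiableWithinAt
  · intro z hz
    unfold Ps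
    rw [← tsum_mul_left]
    refine tsum_congr (fun j => ?_)
    rw [h.sym j z hz]
    ring
  · refine ⟨∑' j : ℕ, ‖t‖ ^ (j + 1) * (M / 1), 3 + ‖c‖, fun z hz => ?_⟩
    have h1 : ∀ y ∈ filled n c, (1 : ℝ) ≤ dist z y := by
      intro y hy
      have h2 := filled_subset n c hy
      rw [mem_closedBall_zero_iff] at h2
      have h3 : ‖z‖ - ‖y‖ ≤ ‖z - y‖ := norm_sub_norm_le z y
      rw [dist_eq_norm]
      linarith
    have h2 : 1 ≤ infDist z (filled n c) := (le_infDist (SMA_ne h.hn h.hc)).2 h1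
    have h3 : z ∉ filled n c := by
      intro h4
      rw [infDist_zero_of_mem h4] at h2
      linarith
    rw [SMA_split h ht h3, add_sub_cancel_left]
    exact tsum_of_norm_bounded (SMA_geo ht (M / 1)).hasSum (fun j => SMA_term h t one_pos h3 h2 j)

end NLT
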